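import Pool.Agent.Lib.MP_4fbe7c_an.WH.Iface
import Pool.Agent.Lib.MP_4fbe7c_an.FC.H16.PA
import Pool.Agent.Lib.MP_4fbe7c_an.SD.Logg

/-!
Project WH (MP_4fbe7c_an), helper95: basic facts for the modules EDE and SDE.
-/

set_option autoImplicit false

open Set Filter Topology MeasureTheory intervalIntegral
open scoped Interval

namespace Pool.Agent.Lib.MP_4fbe7c_an.WH.H95

open Pool.Agent.Lib.MP_4fbe7c_an.SD Pool.Agent.Lib.MP_4fbe7c_an.FC
  Pool.Agent.Lib.MP_4fbe7c_an.WH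

/-- linear combinations of integrals -/
theorem int_lin {L : ℝ} (hL : 0 < L) {f g h q : ℝ → ℝ} (cf : ContinuousOn f (Icc 0 L))
    (cg : ContinuousOn g (Icc 0 L)) (ch : ContinuousOn h (Icc 0 L))
    (cq : ContinuousOn q (Icc 0 L)) (a b c e : ℝ)
    (hpt : ∀ x ∈ Icc 0 L, a * f x + b * g x ≤ c * h x + e * q x) :
    a * (∫ x in (0)..L, f x) + b * (∫ x in (0)..L, g x) ≤
      c * (∫ x in (0)..L, h x) + e * ∫ x in (0)..L, q x := by
  have i1 := (cf.intervalIntegrable_of_Icc hL.le (μ := volume)).const_mul a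
  have i2 := (cg.intervalIntegrable_of_Icc hL.le (μ := volume)).const_mul b
  have i3 := (ch.intervalIntegrable_of_Icc hL.le (μ := volume)).const_mul c
  have i4 := (cq.intervalIntegrable_of_Icc hL.le (μ := volume)).const_mul e
  have := intervalIntegral.integral_mono_on hL.le (i1.add i2) (i3.add i4) hpt
  rw [intervalIntegral.integral_add i1 i2, intervalIntegral.integral_add i3 i4,
    intervalIntegral.integral_const_mul, intervalIntegral.integral_const_mul,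
    intervalIntegral.integral_const_mul, intervalIntegral.integral_const_mul] at this
  exact this

variable {L M : ℝ} {m : ℝ → ℝ} {N : ℕ} {d : Fin N → ℝ} {u v w : Fin N → ℝ → ℝ → ℝ}

theorem mem_ps {k : Fin N} : k ∈ PS L u ↔ Pres L u k := by
  unfold PS
  simp

/-- The absent species have zero derivatives. -/
theorem absent_zero (hc : Ctx L M m d u v w) {i : Fin N} (hi : i ∉ PS L u) {t : ℝ} (ht : 0 < t)
    {x : ℝ} (hx : x ∈ Icc 0 L) : u i t x = 0 ∧ v i t x = 0 ∧ w i t x = 0 := by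
  have hL := hc.hL
  have ha : Absent L u i := by
    rcases (FC.H16.pa L M m N d u v w hc i).1 with h | h
    · exact absurd (mem_ps.2 h) hi
    · exact h
  have h0 : ∀ y ∈ Icc 0 L, u i t y = 0 := fun y hy => ha t ht.le y hy
  have hz : ∀ (y : ℝ) (f : ℝ → ℝ), (∀ z ∈ Icc 0 L, f z = 0) → y ∈ Icc 0 L →
      HasDerivWithinAt f 0 (Icc 0 L) y := by
    intro y f hf hy
    exact (hasDerivWithinAt_const y (Icc 0 L) (0 : ℝ)).congr hf (hf y hy)
  have h1 : ∀ y ∈ Icc 0 L, v i t y = 0 := fun y hy =>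
    (uniqueDiffOn_Icc hL y hy).eq_deriv _ (hc.sol.dx i t ht y hy) (hz y _ h0 hy)
  have h2 : w i t x = 0 :=
    (uniqueDiffOn_Icc hL x hx).eq_deriv _ (hc.sol.dxx i t ht x hx) (hz x _ h1 hx)
  exact ⟨h0 x hx, h1 x hx, h2⟩

/-- `∂_t u_k = u_k T_k` for the present species. -/
theorem ut_eq (hp : ∀ k ∈ PS L u, Pres L u k) {k : Fin N} (hk : k ∈ PS L u) {t : ℝ}
    (ht : 0 < t) {x : ℝ} (hx : x ∈ Icc 0 L) :
    d k * w k t x + u k t x * (m x - ∑ j, u j t x) = u k t x * Tt m d u w k t x := by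
  have hu := (hp k hk t ht x hx).ne'
  unfold Tt
  field_simp

/-- The time derivative of the total density. -/
theorem sum_ut (hc : Ctx L M m d u v w) {t : ℝ} (ht : 0 < t) {x : ℝ} (hx : x ∈ Icc 0 L) :
    ∑ i, (d i * w i t x + u i t x * (m x - ∑ j, u j t x)) =
      ∑ k ∈ PS L u, u k t x * Tt m d u w k t x := by
  rw [← Finset.sum_subset (Finset.subset_univ (PS L u))]
  · exact Finset.sum_congr rfl fun k hk => ut_eq (fun k hk => mem_ps.1 hk) hk ht hx
  · intro i _ hi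
    obtain ⟨h1, -, h3⟩ := absent_zero hc hi ht hx
    rw [h1, h3]
    ring

/-- Continuity of the growth rate. -/
theorem cR (hc : Ctx L M m d u v w) :
    ContinuousOn (fun p : ℝ × ℝ => m p.2 - ∑ j, u j p.1 p.2) (Ioi 0 ×ˢ Icc 0 L) :=
  (hc.sol.cont_rate_log hc.hm).mono (prod_mono Ioi_subset_Ici_self subset_rfl)

/-- Continuity of `∂_t u_i`. -/
theorem cut (hc : Ctx L M m d u v w) (i : Fin N) :
    ContinuousOn (fun p : ℝ × ℝ => d i * w i p.1 p.2 +
      u i p.1 p.2 * (m p.2 - ∑ j, u j p.1 p.2)) (Ioi 0 ×ˢ Icc 0 L) :=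
  (continuousOn_const.mul (hc.sol.cw i)).add ((hc.sol.cuIoi_log i).mul (cR hc))

theorem ne_of_pres {k : Fin N} (hp : Pres L u k) :
    ∀ p ∈ (Ioi (0 : ℝ) ×ˢ Icc (0 : ℝ) L), u k p.1 p.2 ≠ 0 :=
  fun p hp' => (hp p.1 hp'.1 p.2 hp'.2).ne'

/-- Continuity of `∂_x log u_k`. -/
theorem cvu (hc : Ctx L M m d u v w) {k : Fin N} (hp : Pres L u k) :
    ContinuousOn (fun p : ℝ × ℝ => v k p.1 p.2 / u k p.1 p.2) (Ioi 0 ×ˢ Icc 0 L) :=
  (hc.sol.cv k).div (hc.sol.cuIoi_log k) (ne_of_pres hp)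

/-- Continuity of `T_k`. -/
theorem cT (hc : Ctx L M m d u v w) {k : Fin N} (hp : Pres L u k) :
    ContinuousOn (fun p : ℝ × ℝ => Tt m d u w k p.1 p.2) (Ioi 0 ×ˢ Icc 0 L) :=
  (continuousOn_const.mul ((hc.sol.cw k).div (hc.sol.cuIoi_log k) (ne_of_pres hp))).add (cR hc)

theorem slT (hc : Ctx L M m d u v w) {k : Fin N} (hp : Pres L u k) {t : ℝ} (ht : 0 < t) :
    ContinuousOn (fun x => Tt m d u w k t x) (Icc 0 L) :=
  slice (g := fun t x => Tt m d u w k t x) (cT hc hp) (mem_Ioi.2 ht)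

theorem slR (hc : Ctx L M m d u v w) {t : ℝ} (ht : 0 < t) :
    ContinuousOn (fun x => m x - ∑ j, u j t x) (Icc 0 L) :=
  slice (g := fun t x => m x - ∑ j, u j t x) (cR hc) (mem_Ioi.2 ht)

theorem slU (hc : Ctx L M m d u v w) (k : Fin N) {t : ℝ} (ht : 0 < t) :
    ContinuousOn (fun x => u k t x) (Icc 0 L) :=
  slice (g := fun t x => u k t x) (hc.sol.cuIoi_log k) (mem_Ioi.2 ht)

theorem slV (hc : Ctx L M m d u v w) {k : Fin N} (hp : Pres L u k) {t : ℝ} (ht : 0 < t) :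
    ContinuousOn (fun x => v k t x / u k t x) (Icc 0 L) :=
  slice (g := fun t x => v k t x / u k t x) (cvu hc hp) (mem_Ioi.2 ht)

end Pool.Agent.Lib.MP_4fbe7c_an.WH.H95
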