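import Pool.Agent.Lib.MP_4fbe7c_an.WH.H95.Basic

/-!
Project WH (MP_4fbe7c_an), module EDE (helper95): the energy inequality.
-/

set_option autoImplicit false

open Set Filter Topology MeasureTheory intervalIntegral
open scoped Interval

namespace Pool.Agent.Lib.MP_4fbe7c_an.WH.H95

open Pool.Agent.Lib.MP_4fbe7c_an.SD Pool.Agent.Lib.MP_4fbe7c_an.FC
  Pool.Agent.Lib.MP_4fbe7c_an.WH

theorem ede (hY : YDwStatement) : EDeStatement := by
  intro L M m N d u v w hc t t0
  have hL := hc.hL
  have hS := hc.sol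
  have hps : ∀ k ∈ PS L u, Pres L u k := fun k hk => mem_ps.1 hk
  refine ⟨?_, ?_, ?_⟩
  · -- the energy is nonnegative
    unfold En R2
    refine add_nonneg (intervalIntegral.integral_nonneg hL.le fun x _ => sq_nonneg _)
      (Finset.sum_nonneg fun k hk => mul_nonneg (hc.hd k).le ?_)
    exact intervalIntegral.integral_nonneg hL.le fun x hx =>
      div_nonneg (sq_nonneg _) (hps k hk t t0 x hx).le
  · unfold A2
    refine Finset.sum_nonneg fun k hk => ?_
    exact intervalIntegral.integral_nonneg hL.le fun x hx =>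
      mul_nonneg (hps k hk t t0 x hx).le (sq_nonneg _)
  -- derivative of `R2`
  have hR2 : HasDerivAt (R2 L m u) (∫ x in (0)..L, -(2 * (m x - ∑ j, u j t x) *
      ∑ i, (d i * w i t x + u i t x * (m x - ∑ j, u j t x)))) t := by
    refine hasDerivAt_integral hL (g := fun s x => (m x - ∑ j, u j s x) ^ 2)
      (gt := fun s x => -(2 * (m x - ∑ j, u j s x) *
        ∑ i, (d i * w i s x + u i s x * (m x - ∑ j, u j s x)))) ((cR hc).pow 2) ?_ ?_ t t0
    · exact ((continuousOn_const.mul (cR hc)).mul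
        (continuousOn_finsetSum _ fun i _ => cut hc i)).neg
    · intro s hs x hx
      have e := ((HasDerivAt.fun_sum fun i (_ : i ∈ Finset.univ) =>
        hS.dt i s hs x hx).const_sub (m x)).pow 2
      refine e.congr_deriv ?_
      norm_num
  -- derivatives of the other terms
  have hk : ∀ k ∈ PS L u, HasDerivAt (fun t => ∫ x in (0)..L, v k t x ^ 2 / u k t x)
      (-(∫ x in (0)..L, (2 * w k t x / u k t x - v k t x ^ 2 / u k t x ^ 2) *
        (d k * w k t x + u k t x * (m x - ∑ j, u j t x)))) t := by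
    intro k hk
    have hp := hps k hk
    exact hY L (u k) (v k) (w k)
      (fun s x => d k * w k s x + u k s x * (m x - ∑ j, u j s x)) hL (hS.cuIoi_log k)
      (hS.cv k) (hS.cw k) (cut hc k) hp (hS.dx k) (hS.dxx k)
      (fun s hs => ⟨hS.b0 k s hs, hS.bL k s hs⟩) (fun s hs x hx => hS.dt k s hs x hx) t t0
  have hsum : HasDerivAt (fun t => ∑ k ∈ PS L u, d k * ∫ x in (0)..L, v k t x ^ 2 / u k t x)
      (∑ k ∈ PS L u, d k * -(∫ x in (0)..L, (2 * w k t x / u k t x - v k t x ^ 2 / u k t x ^ 2) *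
        (d k * w k t x + u k t x * (m x - ∑ j, u j t x)))) t :=
    HasDerivAt.fun_sum fun k hk' => (hk k hk').const_mul (d k)
  refine ⟨_, hR2.add hsum, ?_⟩
  -- rewrite the derivative of `R2`
  have cRt := slR hc t0
  have e1 : ∫ x in (0)..L, -(2 * (m x - ∑ j, u j t x) *
      ∑ i, (d i * w i t x + u i t x * (m x - ∑ j, u j t x))) =
      ∑ k ∈ PS L u, -2 * ∫ x in (0)..L, (m x - ∑ j, u j t x) * (u k t x * Tt m d u w k t x) := by
    have e2 : ∀ x ∈ Icc 0 L, -(2 * (m x - ∑ j, u j t x) *
        ∑ i, (d i * w i t x + u i t x * (m x - ∑ j, u j t x))) =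
        ∑ k ∈ PS L u, -2 * ((m x - ∑ j, u j t x) * (u k t x * Tt m d u w k t x)) := by
      intro x hx
      rw [sum_ut hc t0 hx, ← Finset.mul_sum, ← Finset.mul_sum]
      ring
    rw [intervalIntegral.integral_congr fun x hx => e2 x (by rwa [uIcc_of_le hL.le] at hx)]
    rw [intervalIntegral.integral_finsetSum]
    · exact Finset.sum_congr rfl fun k _ => intervalIntegral.integral_const_mul _ _
    · intro k hk'
      exact ((cRt.mul ((slU hc k t0).mul (slT hc (hps k hk') t0))).intervalIntegrable_of_Icc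
        hL.le).const_mul _
  rw [e1, ← Finset.sum_add_distrib]
  unfold A2
  rw [Finset.mul_sum, ← Finset.sum_neg_distrib, ← Finset.sum_add_distrib]
  refine Finset.sum_le_sum fun k hk' => ?_
  have hp := hps k hk'
  have cU := slU hc k t0
  have cTt := slT hc hp t0
  have cV := slV hc hp t0
  have cne : ∀ x ∈ Icc 0 L, u k t x ≠ 0 := fun x hx => (hp t t0 x hx).ne'
  have cw : ContinuousOn (fun x => w k t x) (Icc 0 L) :=
    slice (g := fun t x => w k t x) (hS.cw k) (mem_Ioi.2 t0)
  have cv : ContinuousOn (fun x => v k t x) (Icc 0 L) :=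
    slice (g := fun t x => v k t x) (hS.cv k) (mem_Ioi.2 t0)
  have cut' : ContinuousOn (fun x => d k * w k t x + u k t x * (m x - ∑ j, u j t x))
      (Icc 0 L) := (continuousOn_const.mul cw).add (cU.mul cRt)
  have key := int_lin hL (f := fun x => (m x - ∑ j, u j t x) * (u k t x * Tt m d u w k t x))
    (g := fun x => (2 * w k t x / u k t x - v k t x ^ 2 / u k t x ^ 2) *
        (d k * w k t x + u k t x * (m x - ∑ j, u j t x)))
    (h := fun x => u k t x * Tt m d u w k t x ^ 2)
    (q := fun x => u k t x * (d k * (v k t x / u k t x) ^ 2) ^ 2)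
    (cRt.mul (cU.mul cTt))
    ((((continuousOn_const.mul cw).div cU cne).sub ((cv.pow 2).div (cU.pow 2)
      fun x hx => pow_ne_zero 2 (cne x hx))).mul cut')
    (cU.mul (cTt.pow 2)) (cU.mul ((continuousOn_const.mul (cV.pow 2)).pow 2))
    (-2) (-(d k)) (-1) (1 / 4) (by
      intro x hx
      have hu := hp t t0 x hx
      have hut := ut_eq (m := m) (d := d) (w := w) hps hk' t0 hx
      obtain ⟨T, hT⟩ : ∃ T : ℝ, T = Tt m d u w k t x := ⟨_, rfl⟩
      obtain ⟨r, hr⟩ : ∃ r : ℝ, r = m x - ∑ j, u j t x := ⟨_, rfl⟩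
      obtain ⟨e, he⟩ : ∃ e : ℝ, e = d k * (v k t x / u k t x) ^ 2 := ⟨_, rfl⟩
      have h3 : d k * (2 * w k t x / u k t x - v k t x ^ 2 / u k t x ^ 2) = 2 * (T - r) - e := by
        rw [hT, hr, he]
        unfold Tt
        field_simp
        ring
      rw [hut, ← hT, ← hr, ← he]
      have h4 : -2 * (r * (u k t x * T)) + -d k *
          ((2 * w k t x / u k t x - v k t x ^ 2 / u k t x ^ 2) * (u k t x * T)) =
          -2 * (r * (u k t x * T)) - (d k * (2 * w k t x / u k t x - v k t x ^ 2 / u k t x ^ 2)) *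
            (u k t x * T) := by ring
      rw [h4, h3]
      have h5 : 0 ≤ u k t x * (T - e / 2) ^ 2 := mul_nonneg hu.le (sq_nonneg _)
      nlinarith [h5])
  unfold ue
  linarith [key]

end Pool.Agent.Lib.MP_4fbe7c_an.WH.H95
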