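import Pool.Agent.Lib.MP_4fbe7c_an.WH.H95.Basic

/-!
Project WH (MP_4fbe7c_an), module SDE (helper95): the variance of `T_k`.
-/

set_option autoImplicit false

open Set Filter Topology MeasureTheory intervalIntegral
open scoped Interval

namespace Pool.Agent.Lib.MP_4fbe7c_an.WH.H95

open Pool.Agent.Lib.MP_4fbe7c_an.SD Pool.Agent.Lib.MP_4fbe7c_an.FC
  Pool.Agent.Lib.MP_4fbe7c_an.WH

theorem sde (hYd : YDerStatement) (hLg : LgdStatement) : SDeStatement := by
  intro L M m N d u v w k hc hp t t0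
  have hL := hc.hL
  have hS := hc.sol
  have cu : ContinuousOn (fun p : ℝ × ℝ => u k p.1 p.2) (Ioi 0 ×ˢ Icc 0 L) := hS.cuIoi_log k
  have hne := ne_of_pres hp
  have ch : ContinuousOn (fun p : ℝ × ℝ => Real.log (u k p.1 p.2)) (Ioi 0 ×ˢ Icc 0 L) :=
    cu.log hne
  have ch1 := cvu hc hp
  have ch2 : ContinuousOn (fun p : ℝ × ℝ => w k p.1 p.2 / u k p.1 p.2 -
      (v k p.1 p.2 / u k p.1 p.2) ^ 2) (Ioi 0 ×ˢ Icc 0 L) :=
    ((hS.cw k).div cu hne).sub (ch1.pow 2)
  have cht : ContinuousOn (fun p : ℝ × ℝ => Tt m d u w k p.1 p.2) (Ioi 0 ×ˢ Icc 0 L) := cT hc hp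
  have hlog : ∀ s, 0 < s → ∀ x ∈ Icc 0 L,
      HasDerivAt (fun r => Real.log (u k r x)) (Tt m d u w k s x) s := by
    intro s hs x hx
    have hu := (hp s hs x hx).ne'
    have e := (hS.dt k s hs x hx).log hu
    refine e.congr_deriv ?_
    unfold Tt
    field_simp
  have hd1 : ∀ s, 0 < s → DerivOn L (fun x => Real.log (u k s x))
      (fun x => v k s x / u k s x) := fun s hs x hx =>
    (hS.dx k s hs x hx).log (hp s hs x hx).ne'
  have hd2 : ∀ s, 0 < s → DerivOn L (fun x => v k s x / u k s x)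
      (fun x => w k s x / u k s x - (v k s x / u k s x) ^ 2) := fun s hs x hx => by
    have e := (hS.dxx k s hs x hx).div (hS.dx k s hs x hx) (hp s hs x hx).ne'
    have hu := (hp s hs x hx).ne'
    have e2 : (w k s x * u k s x - v k s x * v k s x) / u k s x ^ 2 =
        w k s x / u k s x - (v k s x / u k s x) ^ 2 := by
      field_simp
    rw [e2] at e
    exact e
  -- derivative of `yy`
  have hyy : HasDerivAt (yy L u v k) (-(2 * ∫ x in (0)..L,
      (w k t x / u k t x - (v k t x / u k t x) ^ 2) * Tt m d u w k t x)) t :=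
    hYd L (fun s x => Real.log (u k s x)) (fun s x => v k s x / u k s x)
      (fun s x => w k s x / u k s x - (v k s x / u k s x) ^ 2)
      (fun s x => Tt m d u w k s x) hL ch ch1 ch2 cht hd1 hd2
      (fun s hs => ⟨by simp only [hS.b0 k s hs, zero_div], by simp only [hS.bL k s hs, zero_div]⟩)
      hlog t t0
  -- derivative of `lg`
  have hlg := hLg L M m N d u v w k hc hp t t0
  have cUt : ContinuousOn (fun p : ℝ × ℝ => ∑ i, (d i * w i p.1 p.2 +
      u i p.1 p.2 * (m p.2 - ∑ j, u j p.1 p.2))) (Ioi 0 ×ˢ Icc 0 L) :=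
    continuousOn_finsetSum _ fun i _ => cut hc i
  have hRt : ∀ s, 0 < s → ∀ x ∈ Icc 0 L, HasDerivAt (fun r => m x - ∑ j, u j r x)
      (-∑ i, (d i * w i s x + u i s x * (m x - ∑ j, u j s x))) s := fun s hs x hx =>
    (HasDerivAt.fun_sum fun i (_ : i ∈ Finset.univ) => hS.dt i s hs x hx).const_sub (m x)
  -- derivative of `∫ R log u`
  have hRl : HasDerivAt (fun s => ∫ x in (0)..L, (m x - ∑ j, u j s x) * Real.log (u k s x))
      (∫ x in (0)..L, ((-∑ i, (d i * w i t x + u i t x * (m x - ∑ j, u j t x))) *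
        Real.log (u k t x) + (m x - ∑ j, u j t x) * Tt m d u w k t x)) t :=
    hasDerivAt_integral hL (g := fun s x => (m x - ∑ j, u j s x) * Real.log (u k s x))
      (gt := fun s x => (-∑ i, (d i * w i s x + u i s x * (m x - ∑ j, u j s x))) *
        Real.log (u k s x) + (m x - ∑ j, u j s x) * Tt m d u w k s x)
      ((cR hc).mul ch) ((cUt.neg.mul ch).add ((cR hc).mul cht))
      (fun s hs x hx => (hRt s hs x hx).mul (hlog s hs x hx)) t t0
  -- derivative of `∫ R`
  have hR1 : HasDerivAt (fun s => ∫ x in (0)..L, (m x - ∑ j, u j s x))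
      (∫ x in (0)..L, -∑ i, (d i * w i t x + u i t x * (m x - ∑ j, u j t x))) t :=
    hasDerivAt_integral hL (g := fun s x => m x - ∑ j, u j s x)
      (gt := fun s x => -∑ i, (d i * w i s x + u i s x * (m x - ∑ j, u j s x)))
      (cR hc) cUt.neg hRt t t0
  -- the functions at time `t`
  have cRt := slR hc t0
  have cTt := slT hc hp t0
  have cV := slV hc hp t0
  have c2 : ContinuousOn (fun x => w k t x / u k t x - (v k t x / u k t x) ^ 2) (Icc 0 L) :=
    slice (g := fun t x => w k t x / u k t x - (v k t x / u k t x) ^ 2) ch2 (mem_Ioi.2 t0)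
  have cl : ContinuousOn (fun x => Real.log (u k t x)) (Icc 0 L) :=
    slice (g := fun t x => Real.log (u k t x)) ch (mem_Ioi.2 t0)
  have cUtt : ContinuousOn (fun x => ∑ i, (d i * w i t x + u i t x * (m x - ∑ j, u j t x)))
      (Icc 0 L) :=
    slice (g := fun t x => ∑ i, (d i * w i t x + u i t x * (m x - ∑ j, u j t x))) cUt
      (mem_Ioi.2 t0)
  have ii : ∀ {f : ℝ → ℝ}, ContinuousOn f (Icc 0 L) → IntervalIntegrable f volume 0 L :=
    fun hf => hf.intervalIntegrable_of_Icc hL.le
  -- the functional `Pf`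
  have hPf : ∀ s, 0 < s → Pf L m d u v k s = -(d k / 2 * yy L u v k s) +
      ((∫ x in (0)..L, (m x - ∑ j, u j s x) * Real.log (u k s x)) -
        lg L u k s / L * ∫ x in (0)..L, (m x - ∑ j, u j s x)) := by
    intro s hs
    unfold Pf
    congr 1
    have cRs := slR hc hs
    have cls : ContinuousOn (fun x => Real.log (u k s x)) (Icc 0 L) :=
      slice (g := fun t x => Real.log (u k t x)) ch (mem_Ioi.2 hs)
    have jA : IntervalIntegrable (fun x => (m x - ∑ j, u j s x) * Real.log (u k s x))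
        volume 0 L := ii (cRs.mul cls)
    rw [← intervalIntegral.integral_const_mul, ← intervalIntegral.integral_sub
      jA ((ii cRs).const_mul _)]
    refine intervalIntegral.integral_congr fun x _ => ?_
    ring
  obtain ⟨lgd, hlgd⟩ : ∃ z : ℝ, z = d k * yy L u v k t + R1 L m u t := ⟨_, rfl⟩
  rw [← hlgd] at hlg
  have hP' : HasDerivAt (Pf L m d u v k)
      (-(d k / 2 * -(2 * ∫ x in (0)..L,
        (w k t x / u k t x - (v k t x / u k t x) ^ 2) * Tt m d u w k t x)) +
      ((∫ x in (0)..L, ((-∑ i, (d i * w i t x + u i t x * (m x - ∑ j, u j t x))) *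
        Real.log (u k t x) + (m x - ∑ j, u j t x) * Tt m d u w k t x)) -
        (lgd / L * (∫ x in (0)..L, (m x - ∑ j, u j t x)) + lg L u k t / L *
          ∫ x in (0)..L, -∑ i, (d i * w i t x + u i t x * (m x - ∑ j, u j t x))))) t := by
    have e := ((hyy.const_mul (d k / 2)).neg).add (hRl.sub ((hlg.div_const L).mul hR1))
    refine e.congr_of_eventuallyEq ?_
    filter_upwards [lt_mem_nhds t0] with s hs
    rw [hPf s hs]
    rfl
  refine ⟨_, hP', ?_⟩
  -- notation
  obtain ⟨Tb, hTb⟩ : ∃ z : ℝ, z = (∫ z in (0)..L, Tt m d u w k t z) / L := ⟨_, rfl⟩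
  have h0 : ∫ x in (0)..L, (w k t x / u k t x - (v k t x / u k t x) ^ 2) = 0 := by
    rw [integral_deriv hL (hd2 t t0) c2, hS.b0 k t t0, hS.bL k t t0]
    simp
  have hTdec : ∀ x ∈ Icc 0 L, Tt m d u w k t x = d k * (w k t x / u k t x -
      (v k t x / u k t x) ^ 2) + d k * (v k t x / u k t x) ^ 2 + (m x - ∑ j, u j t x) := by
    intro x _
    unfold Tt
    ring
  have jV : IntervalIntegrable (fun x => (v k t x / u k t x) ^ 2) volume 0 L := ii (cV.pow 2)
  have hIT : (∫ x in (0)..L, Tt m d u w k t x) = lgd := by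
    rw [intervalIntegral.integral_congr fun x hx => hTdec x (by rwa [uIcc_of_le hL.le] at hx),
      intervalIntegral.integral_add (((ii c2).const_mul _).add (jV.const_mul _))
        (ii cRt),
      intervalIntegral.integral_add ((ii c2).const_mul _) (jV.const_mul _),
      intervalIntegral.integral_const_mul, intervalIntegral.integral_const_mul, h0, hlgd]
    unfold yy R1
    ring
  have hlgT : lgd / L = Tb := by rw [hTb, hIT]
  have hLTb : (∫ x in (0)..L, Tt m d u w k t x) = Tb * L := by rw [hTb]; field_simp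
  -- rewrite all integrals
  obtain ⟨A, hA⟩ : ∃ z : ℝ, z = ∫ x in (0)..L,
      (w k t x / u k t x - (v k t x / u k t x) ^ 2) * Tt m d u w k t x := ⟨_, rfl⟩
  obtain ⟨B, hB⟩ : ∃ z : ℝ, z = ∫ x in (0)..L, (m x - ∑ j, u j t x) * Tt m d u w k t x :=
    ⟨_, rfl⟩
  obtain ⟨R0, hR0⟩ : ∃ z : ℝ, z = ∫ x in (0)..L, (m x - ∑ j, u j t x) := ⟨_, rfl⟩
  obtain ⟨W1, hW1⟩ : ∃ z : ℝ, z = ∫ x in (0)..L,
      (∑ i, (d i * w i t x + u i t x * (m x - ∑ j, u j t x))) * Real.log (u k t x) := ⟨_, rfl⟩
  obtain ⟨W0, hW0⟩ : ∃ z : ℝ, z = ∫ x in (0)..L,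
      (∑ i, (d i * w i t x + u i t x * (m x - ∑ j, u j t x))) := ⟨_, rfl⟩
  have jB : IntervalIntegrable (fun x => (-∑ i, (d i * w i t x +
      u i t x * (m x - ∑ j, u j t x))) * Real.log (u k t x)) volume 0 L :=
    ii (cUtt.neg.mul cl)
  have jC : IntervalIntegrable (fun x => (m x - ∑ j, u j t x) * Tt m d u w k t x)
      volume 0 L := ii (cRt.mul cTt)
  have jD : IntervalIntegrable (fun x => (∑ i, (d i * w i t x +
      u i t x * (m x - ∑ j, u j t x))) * Real.log (u k t x)) volume 0 L :=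
    ii (cUtt.mul cl)
  have e1 : ∫ x in (0)..L, ((-∑ i, (d i * w i t x + u i t x * (m x - ∑ j, u j t x))) *
      Real.log (u k t x) + (m x - ∑ j, u j t x) * Tt m d u w k t x) = -W1 + B := by
    rw [intervalIntegral.integral_add jB jC, hW1, hB,
      ← intervalIntegral.integral_neg]
    congr 1
    refine intervalIntegral.integral_congr fun x _ => ?_
    ring
  have e2' : ∫ x in (0)..L, -∑ i, (d i * w i t x + u i t x * (m x - ∑ j, u j t x)) = -W0 := by
    rw [intervalIntegral.integral_neg, hW0]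
  have e3 : ∫ x in (0)..L, (∑ i ∈ PS L u, u i t x * Tt m d u w i t x) *
      (Real.log (u k t x) - lg L u k t / L) = W1 - lg L u k t / L * W0 := by
    rw [hW1, hW0, ← intervalIntegral.integral_const_mul, ← intervalIntegral.integral_sub
      jD ((ii cUtt).const_mul _)]
    refine intervalIntegral.integral_congr fun x hx => ?_
    rw [uIcc_of_le hL.le] at hx
    rw [sum_ut hc t0 hx]
    ring
  rw [e1, e2', e3, ← hA, hlgT, ← hR0]
  -- the variance
  obtain ⟨E1, hE1⟩ : ∃ z : ℝ, z = ∫ x in (0)..L,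
      (d k * (v k t x / u k t x) ^ 2) * (Tt m d u w k t x - Tb) := ⟨_, rfl⟩
  have cTb : ContinuousOn (fun x => Tt m d u w k t x - Tb) (Icc 0 L) := cTt.sub continuousOn_const
  have hSd0 : Sd L m d u w k t = ∫ x in (0)..L, (Tt m d u w k t x - Tb) ^ 2 := by
    unfold Sd
    rw [hTb]
  have hSd : Sd L m d u w k t = d k * A + E1 + (B - Tb * R0) := by
    have f1 : Sd L m d u w k t = ∫ x in (0)..L,
        ((d k * ((w k t x / u k t x - (v k t x / u k t x) ^ 2) * Tt m d u w k t x) +
          (d k * (v k t x / u k t x) ^ 2) * (Tt m d u w k t x - Tb) +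
          (m x - ∑ j, u j t x) * Tt m d u w k t x) -
          (d k * Tb) * (w k t x / u k t x - (v k t x / u k t x) ^ 2) -
          Tb * (m x - ∑ j, u j t x) - Tb * (Tt m d u w k t x - Tb)) := by
      rw [hSd0]
      refine intervalIntegral.integral_congr fun x hx => ?_
      rw [uIcc_of_le hL.le] at hx
      have := hTdec x hx
      obtain ⟨T, hT⟩ : ∃ T : ℝ, T = Tt m d u w k t x := ⟨_, rfl⟩
      obtain ⟨r, hr⟩ : ∃ r : ℝ, r = m x - ∑ j, u j t x := ⟨_, rfl⟩
      obtain ⟨e, he⟩ : ∃ e : ℝ, e = (v k t x / u k t x) ^ 2 := ⟨_, rfl⟩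
      obtain ⟨q, hq⟩ : ∃ q : ℝ, q = w k t x / u k t x - e := ⟨_, rfl⟩
      rw [← he, ← hT, ← hr] at this ⊢
      rw [← hq] at this ⊢
      have h5 : T - Tb = d k * q + d k * e + r - Tb := by rw [this]
      calc (T - Tb) ^ 2 = (T - Tb) * (T - Tb) := sq _
        _ = (d k * q + d k * e + r - Tb) * (T - Tb) := by rw [← h5]
        _ = _ := by ring
    have j0 : IntervalIntegrable (fun x => (w k t x / u k t x - (v k t x / u k t x) ^ 2) *
        Tt m d u w k t x) volume 0 L := ii (c2.mul cTt)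
    have j1 := j0.const_mul (d k)
    have j2 : IntervalIntegrable (fun x => (d k * (v k t x / u k t x) ^ 2) *
        (Tt m d u w k t x - Tb)) volume 0 L :=
      ii ((continuousOn_const.mul (cV.pow 2)).mul cTb)
    have j3 := jC
    have j4 := (ii c2).const_mul (d k * Tb)
    have j5 := (ii cRt).const_mul Tb
    have j6 := (ii cTb).const_mul Tb
    have f2 : ∫ x in (0)..L, (Tt m d u w k t x - Tb) = 0 := by
      rw [intervalIntegral.integral_sub (ii cTt) intervalIntegrable_const, hLTb,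
        intervalIntegral.integral_const, smul_eq_mul]
      ring
    rw [f1, intervalIntegral.integral_sub (((((j1.add j2).add j3).sub j4).sub j5)) j6,
      intervalIntegral.integral_sub ((((j1.add j2).add j3).sub j4)) j5,
      intervalIntegral.integral_sub (((j1.add j2).add j3)) j4,
      intervalIntegral.integral_add (j1.add j2) j3,
      intervalIntegral.integral_add j1 j2,
      intervalIntegral.integral_const_mul, intervalIntegral.integral_const_mul,
      intervalIntegral.integral_const_mul, intervalIntegral.integral_const_mul, f2, h0,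
      ← hA, ← hB, ← hR0, ← hE1]
    ring
  have hE : E1 ≤ Sd L m d u w k t / 2 + e2 L d u v k t / 2 := by
    have f1 := int_lin hL
      (f := fun x => (d k * (v k t x / u k t x) ^ 2) * (Tt m d u w k t x - Tb))
      (g := fun _ => 0) (h := fun x => (Tt m d u w k t x - Tb) ^ 2)
      (q := fun x => (d k * (v k t x / u k t x) ^ 2) ^ 2)
      ((continuousOn_const.mul (cV.pow 2)).mul cTb) continuousOn_const (cTb.pow 2)
      ((continuousOn_const.mul (cV.pow 2)).pow 2) 1 0 (1 / 2) (1 / 2) (by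
        intro x _
        have := sq_nonneg ((d k * (v k t x / u k t x) ^ 2) - (Tt m d u w k t x - Tb))
        nlinarith)
    rw [← hE1, ← hSd0] at f1
    unfold e2
    linarith
  linarith

end Pool.Agent.Lib.MP_4fbe7c_an.WH.H95
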